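import Pool.Agent.Helper89.Stx.Defs
import Pool.Agent.Helper81.Stx.Weyl
import Pool.Agent.Helper35.Stx.SieveOf

/-!
# MP_65a63f_X, row X3: average of the periodic kernel over all denominators

`Pd_sum`, `coll_sum`.
-/

set_option autoImplicit false

namespace Stx

open Finset Stz

/-- Abel summation with a nonincreasing nonnegative weight -/
theorem x3_abel (w : ℕ → ℝ) (f : ℕ → ℂ) (M : ℝ) (n : ℕ) (hw : ∀ i, w (i + 1) ≤ w i)
    (hw0 : ∀ i, 0 ≤ w i) (hf : ∀ k ≤ n, ‖∑ i ∈ range k, f i‖ ≤ M) :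
    ‖∑ i ∈ range n, (w i : ℂ) * f i‖ ≤ w 0 * M := by
  have key : ∀ k ≤ n, ‖∑ i ∈ range k, (w i : ℂ) * f i - (w k : ℂ) * ∑ i ∈ range k, f i‖
      ≤ (w 0 - w k) * M := by
    intro k
    induction k with
    | zero => intro _; simp
    | succ k ih =>
        intro hk
        have h1 := ih (by omega)
        have e : ∑ i ∈ range (k + 1), (w i : ℂ) * f i -
            (w (k + 1) : ℂ) * ∑ i ∈ range (k + 1), f i =
            (∑ i ∈ range k, (w i : ℂ) * f i - (w k : ℂ) * ∑ i ∈ range k, f i) +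
              ((w k - w (k + 1) : ℝ) : ℂ) * ∑ i ∈ range (k + 1), f i := by
          rw [sum_range_succ, sum_range_succ]
          push_cast
          ring
        rw [e]
        refine (norm_add_le _ _).trans ?_
        rw [norm_mul, Complex.norm_real, Real.norm_eq_abs,
          abs_of_nonneg (sub_nonneg.2 (hw k))]
        have h2 := mul_le_mul_of_nonneg_left (hf (k + 1) hk) (sub_nonneg.2 (hw k))
        linarith
  have h := key n le_rfl
  have e : ∑ i ∈ range n, (w i : ℂ) * f i =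
      (∑ i ∈ range n, (w i : ℂ) * f i - (w n : ℂ) * ∑ i ∈ range n, f i) +
        (w n : ℂ) * ∑ i ∈ range n, f i := by ring
  rw [e]
  refine (norm_add_le _ _).trans ?_
  rw [norm_mul, Complex.norm_real, Real.norm_eq_abs, abs_of_nonneg (hw0 n)]
  have h2 := mul_le_mul_of_nonneg_left (hf n le_rfl) (hw0 n)
  linarith

theorem x3_wt_anti (N : ℕ) (d : ℕ) (j : ℤ) :
    wt N (((d + 1 : ℕ) : ℤ) * j) ≤ wt N ((d : ℤ) * j) := by
  unfold wt
  apply max_le_max le_rfl
  apply sub_le_sub_left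
  apply div_le_div_of_nonneg_right _ (Nat.cast_nonneg N)
  push_cast
  rw [abs_mul, abs_mul]
  apply mul_le_mul_of_nonneg_right _ (abs_nonneg _)
  have h : (0 : ℝ) ≤ d := Nat.cast_nonneg d
  rw [abs_of_nonneg h, abs_of_nonneg (by linarith)]
  linarith

/-- one factor of `Pd` as a complex sum over `[-H, H]` -/
theorem x3_factor (A N d D H : ℕ) [NeZero A] (hN : 1 ≤ N) (hd : D < d)
    (hH : 2 * N ≤ (H + 1) * D) (u : ZMod A) :
    ((Th A N d u / d : ℝ) : ℂ) =
      ∑ j ∈ Icc (-(H : ℤ)) H, (wt N ((d : ℤ) * j) : ℂ) * ps A (((d : ZMod A) * ((j : ZMod A) * u))) := by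
  have hd0 : (d : ℝ) ≠ 0 := by
    have : 0 < d := by omega
    exact_mod_cast this.ne'
  have h1 : Th A N d u / d = ∑ j ∈ Icc (-(2 * N : ℤ)) (2 * N),
      wt N (d * j) * (ps A (((d * j : ℤ) : ZMod A) * u)).re := by
    unfold Th
    field_simp
  have hsup : ∀ j : ℤ, 2 * (N : ℤ) < |j| → wt N ((d : ℤ) * j) = 0 := by
    intro j hj
    apply wt_of_le_abs N hN
    rw [abs_mul]
    have : (1 : ℤ) ≤ |(d : ℤ)| := by
      rw [abs_of_nonneg (by positivity)]
      omega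
    nlinarith [abs_nonneg j]
  have hsup' : ∀ j : ℤ, (H : ℤ) < |j| → wt N ((d : ℤ) * j) = 0 := by
    intro j hj
    apply wt_of_le_abs N hN
    rw [abs_mul]
    have h2 : ((D : ℤ)) ≤ |(d : ℤ)| := by
      rw [abs_of_nonneg (by positivity)]
      exact_mod_cast hd.le
    have h3 : (H : ℤ) + 1 ≤ |j| := hj
    have h4 : (2 * (N : ℤ)) ≤ (H + 1) * D := by exact_mod_cast hH
    have h5 : (D : ℤ) * (H + 1) ≤ |(d : ℤ)| * |j| :=
      mul_le_mul h2 h3 (by positivity) (abs_nonneg _)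
    linarith
  -- change of range
  have hrange : ∑ j ∈ Icc (-(2 * N : ℤ)) (2 * N),
      wt N (d * j) * (ps A (((d * j : ℤ) : ZMod A) * u)).re =
      ∑ j ∈ Icc (-(H : ℤ)) H, wt N (d * j) * (ps A (((d * j : ℤ) : ZMod A) * u)).re := by
    have e1 : ∑ j ∈ Icc (-(2 * N : ℤ)) (2 * N),
        wt N (d * j) * (ps A (((d * j : ℤ) : ZMod A) * u)).re =
        ∑ j ∈ Icc (-(2 * N + H : ℤ)) (2 * N + H),
          wt N (d * j) * (ps A (((d * j : ℤ) : ZMod A) * u)).re := by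
      apply sum_subset
      · intro j hj
        rw [mem_Icc] at hj ⊢
        constructor <;> omega
      · intro j _ hj'
        rw [hsup j, zero_mul]
        rw [mem_Icc, not_and_or] at hj'
        rcases hj' with h | h
        · rw [lt_abs]
          right
          omega
        · rw [lt_abs]
          left
          omega
    have e2 : ∑ j ∈ Icc (-(H : ℤ)) H,
        wt N (d * j) * (ps A (((d * j : ℤ) : ZMod A) * u)).re =
        ∑ j ∈ Icc (-(2 * N + H : ℤ)) (2 * N + H),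
          wt N (d * j) * (ps A (((d * j : ℤ) : ZMod A) * u)).re := by
      apply sum_subset
      · intro j hj
        rw [mem_Icc] at hj ⊢
        constructor <;> omega
      · intro j _ hj'
        rw [hsup' j, zero_mul]
        rw [mem_Icc, not_and_or] at hj'
        rcases hj' with h | h
        · rw [lt_abs]
          right
          omega
        · rw [lt_abs]
          left
          omega
    rw [e1, e2]
  rw [h1, hrange]
  -- reality
  set S : ℂ := ∑ j ∈ Icc (-(H : ℤ)) H,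
    (wt N ((d : ℤ) * j) : ℂ) * ps A (((d : ZMod A) * ((j : ZMod A) * u))) with hS
  have hconj : (starRingEnd ℂ) S = S := by
    rw [hS, map_sum]
    refine sum_bij' (fun j _ => -j) (fun j _ => -j) ?_ ?_ ?_ ?_ ?_
    · intro j hj
      rw [mem_Icc] at hj ⊢
      constructor <;> omega
    · intro j hj
      rw [mem_Icc] at hj ⊢
      constructor <;> omega
    · intro j _
      ring
    · intro j _
      ring
    · intro j _
      rw [map_mul, Complex.conj_ofReal, w6_ps_conj]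
      have : (d : ℤ) * (-j) = -((d : ℤ) * j) := by ring
      rw [this, wt_neg]
      congr 2
      push_cast
      ring
  have hre : S = (S.re : ℂ) := (Complex.conj_eq_iff_real.1 hconj).elim fun t ht => by
    rw [ht, Complex.ofReal_re]
  rw [hre]
  congr 1
  rw [hS, Complex.re_sum]
  refine sum_congr rfl fun j _ => ?_
  rw [Complex.re_ofReal_mul]
  congr 3
  push_cast
  ring

/-- `Pd` as an exponential sum over `[-H, H]^r` -/
theorem x3_Pd_eq (A r N d D H : ℕ) [NeZero A] (hN : 1 ≤ N) (hd : D < d)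
    (hH : 2 * N ≤ (H + 1) * D) (y : Fin r → ZMod A) :
    ((Pd A r N d y : ℝ) : ℂ) =
      ∑ j ∈ BZ r H, ((∏ l, wt N ((d : ℤ) * j l) : ℝ) : ℂ) * ps A ((d : ZMod A) * dt j y) := by
  unfold Pd
  rw [Complex.ofReal_prod, prod_congr rfl fun l _ => x3_factor A N d D H hN hd hH (y l),
    prod_univ_sum]
  refine sum_congr rfl fun j _ => ?_
  rw [prod_mul_distrib, ← ps_sum]
  congr 1
  · push_cast
    rfl
  · unfold dt
    rw [mul_sum]

theorem x3_mn_le (A : ℕ) (L : ℝ) (hL : 0 < L) (u : ZMod A) : mn A L u ≤ L := by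
  unfold mn
  rw [inv_le_comm₀ (lt_of_lt_of_le (by positivity) (le_max_left _ _)) hL]
  rw [inv_eq_one_div]
  exact le_max_left _ _

theorem x3_mn_le' (A : ℕ) (L τ : ℝ) (hτ : 0 < τ) (u : ZMod A) (h : τ < nrm A u) :
    mn A L u ≤ (2 * τ)⁻¹ := by
  unfold mn
  apply inv_anti₀ (by positivity)
  exact le_trans (by linarith) (le_max_right _ _)

/-- the sum over the denominators of one frequency -/
theorem x3_one (A r N D : ℕ) [NeZero A] (hD : 1 ≤ D) (j : Fin r → ℤ)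
    (y : Fin r → ZMod A) :
    ‖∑ d ∈ Ioc D (16 * D), ((∏ l, wt N ((d : ℤ) * j l) : ℝ) : ℂ) * ps A ((d : ZMod A) * dt j y)‖
      ≤ 2 ^ r * mn A (15 * D : ℕ) (dt j y) := by
  have e : ∑ d ∈ Ioc D (16 * D), ((∏ l, wt N ((d : ℤ) * j l) : ℝ) : ℂ) *
      ps A ((d : ZMod A) * dt j y) =
      ∑ i ∈ range (15 * D), ((∏ l, wt N (((D + 1 + i : ℕ) : ℤ) * j l) : ℝ) : ℂ) *
        ps A ((i : ZMod A) * dt j y + ((D + 1 : ℕ) : ZMod A) * dt j y) := by
    have e0 : Ioc D (16 * D) = Ico (D + 1) (16 * D + 1) := by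
      ext x
      simp only [mem_Ioc, mem_Ico]
      omega
    rw [e0, sum_Ico_eq_sum_range]
    have e1 : 16 * D + 1 - (D + 1) = 15 * D := by omega
    rw [e1]
    refine sum_congr rfl fun i _ => ?_
    congr 2
    push_cast
    ring
  rw [e]
  have hL : 1 ≤ 15 * D := by omega
  have hab := x3_abel (fun i => ∏ l, wt N (((D + 1 + i : ℕ) : ℤ) * j l))
    (fun i => ps A ((i : ZMod A) * dt j y + ((D + 1 : ℕ) : ZMod A) * dt j y))
    (mn A (15 * D : ℕ) (dt j y)) (15 * D)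
    (fun i => prod_le_prod (fun l _ => wt_nonneg _ _) fun l _ => by
      have := x3_wt_anti N (D + 1 + i) (j l)
      exact this)
    (fun i => prod_nonneg fun l _ => wt_nonneg _ _)
    (fun k hk => geom A k (15 * D) hk hL _ _)
  refine hab.trans ?_
  apply mul_le_mul_of_nonneg_right _ (w6_mn_nonneg A _ (by positivity) _)
  calc ∏ l, wt N (((D + 1 + 0 : ℕ) : ℤ) * j l) ≤ ∏ _l : Fin r, (2 : ℝ) :=
        prod_le_prod (fun l _ => wt_nonneg _ _) fun l _ => wt_le_two _ _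
    _ = 2 ^ r := by simp

theorem x3_card_BZ (r H : ℕ) : (BZ r H).card = (2 * H + 1) ^ r := by
  unfold BZ
  rw [Fintype.card_piFinset]
  simp only [Int.card_Icc, prod_const, card_univ, Fintype.card_fin]
  congr 1
  omega

/-- pairwise dependent vectors in the box: at most `2 H + 1` -/
theorem x3_dep (r H : ℕ) (T : Finset (Fin r → ℤ)) (hT : T ⊆ BZ r H)
    (hdep : ∀ k ∈ T, ∀ k' ∈ T, ¬ Ind k k') : T.card ≤ 2 * H + 1 := by
  classical
  by_cases h0 : ∀ k ∈ T, k = 0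
  · have : T ⊆ {0} := fun k hk => mem_singleton.2 (h0 k hk)
    have := card_le_card this
    rw [card_singleton] at this
    omega
  · push Not at h0
    obtain ⟨k0, hk0, hne⟩ := h0
    obtain ⟨l0, hl0⟩ : ∃ l, k0 l ≠ 0 := by
      by_contra h
      push Not at h
      exact hne (funext h)
    have hcard : T.card ≤ (Icc (-(H : ℤ)) H).card := by
      apply card_le_card_of_injOn (fun k => k l0)
      · intro k hk
        have := mem_BZ.1 (hT hk) l0
        simp only [coe_Icc, Set.mem_Icc]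
        exact this
      · intro k hk k' hk' hkk'
        funext l'
        have h1 := hdep k0 hk0 k hk
        have h2 := hdep k0 hk0 k' hk'
        unfold Ind at h1 h2
        push Not at h1 h2
        have h3 := h1 l0 l'
        have h4 := h2 l0 l'
        have h5 : k l0 = k' l0 := hkk'
        rw [h5] at h3
        exact mul_left_cancel₀ hl0 (h3.trans h4.symm)
    rw [Int.card_Icc] at hcard
    omega

open scoped Classical in
theorem Pd_sum (r : ℕ) : ∃ C : ℝ, 0 < C ∧ ∀ (A N D H : ℕ) [NeZero A], 1 ≤ N → 1 ≤ D → 1 ≤ H →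
    2 * N ≤ (H + 1) * D → ∀ y : Fin r → ZMod A,
    ∑ d ∈ Ioc D (16 * D), Pd A r N d y ≤ C * D * (H + (H : ℝ) ^ r *
      (((BZ r H ×ˢ BZ r H).filter fun k : (Fin r → ℤ) × (Fin r → ℤ) => Ind k.1 k.2 ∧
        nrm A (dt k.1 y) ≤ (3 * H : ℝ) ^ r / D ∧ nrm A (dt k.2 y) ≤ (3 * H : ℝ) ^ r / D).card : ℝ))
    := by
  refine ⟨2 ^ r * (46 + 15 * 3 ^ r), by positivity, ?_⟩
  intro A N D H _ hN hD hH hNH y
  have hD0 : (0 : ℝ) < D := by exact_mod_cast hD
  have hH1 : (1 : ℝ) ≤ H := by exact_mod_cast hH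
  have hH0 : (0 : ℝ) < H := by linarith
  set τ : ℝ := (3 * H : ℝ) ^ r / D with hτ
  have hτ0 : 0 < τ := by positivity
  set P := (BZ r H ×ˢ BZ r H).filter fun k : (Fin r → ℤ) × (Fin r → ℤ) => Ind k.1 k.2 ∧
        nrm A (dt k.1 y) ≤ τ ∧ nrm A (dt k.2 y) ≤ τ with hP
  set T := (BZ r H).filter fun k => nrm A (dt k y) ≤ τ with hT
  -- the sum is bounded by the sum of the majorants
  have h1 : ∑ d ∈ Ioc D (16 * D), Pd A r N d y ≤
      ∑ j ∈ BZ r H, 2 ^ r * mn A (15 * D : ℕ) (dt j y) := by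
    have e : ((∑ d ∈ Ioc D (16 * D), Pd A r N d y : ℝ) : ℂ) =
        ∑ j ∈ BZ r H, ∑ d ∈ Ioc D (16 * D), ((∏ l, wt N ((d : ℤ) * j l) : ℝ) : ℂ) *
          ps A ((d : ZMod A) * dt j y) := by
      rw [Complex.ofReal_sum, sum_comm]
      exact sum_congr rfl fun d hd => x3_Pd_eq A r N d D H hN (mem_Ioc.1 hd).1 hNH y
    calc ∑ d ∈ Ioc D (16 * D), Pd A r N d y
        ≤ ‖((∑ d ∈ Ioc D (16 * D), Pd A r N d y : ℝ) : ℂ)‖ := by
          rw [Complex.norm_real]
          exact le_abs_self _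
      _ ≤ _ := by
          rw [e]
          exact (norm_sum_le _ _).trans (sum_le_sum fun j _ => x3_one A r N D hD j y)
  -- split
  have h15 : (0 : ℝ) < ((15 * D : ℕ) : ℝ) := by positivity
  have h2 : ∑ j ∈ BZ r H, 2 ^ r * mn A (15 * D : ℕ) (dt j y) ≤
      (T.card : ℝ) * (2 ^ r * (15 * D)) + ((BZ r H).card : ℝ) * (2 ^ r * (2 * τ)⁻¹) := by
    have e : ∀ j ∈ BZ r H, 2 ^ r * mn A (15 * D : ℕ) (dt j y) ≤
        (if nrm A (dt j y) ≤ τ then (2 ^ r * (15 * D : ℝ)) else 0) + 2 ^ r * (2 * τ)⁻¹ := by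
      intro j _
      split_ifs with h
      · have h3 := x3_mn_le A ((15 * D : ℕ) : ℝ) h15 (dt j y)
        have h4 : (2 : ℝ) ^ r * mn A (15 * D : ℕ) (dt j y) ≤ 2 ^ r * (15 * D) := by
          apply mul_le_mul_of_nonneg_left _ (by positivity)
          push_cast at h3 ⊢
          exact h3
        have h5 : (0 : ℝ) ≤ 2 ^ r * (2 * τ)⁻¹ := by positivity
        linarith
      · rw [zero_add]
        apply mul_le_mul_of_nonneg_left _ (by positivity)
        exact x3_mn_le' A _ τ hτ0 _ (not_le.1 h)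
    refine (sum_le_sum e).trans ?_
    rw [sum_add_distrib, ← sum_filter, sum_const, sum_const, nsmul_eq_mul, nsmul_eq_mul]
  -- the far part
  have hcard : ((BZ r H).card : ℝ) ≤ (3 * H) ^ r := by
    rw [x3_card_BZ]
    push_cast
    apply pow_le_pow_left₀ (by positivity)
    linarith
  have h3 : ((BZ r H).card : ℝ) * (2 ^ r * (2 * τ)⁻¹) ≤ 2 ^ r * D := by
    calc ((BZ r H).card : ℝ) * (2 ^ r * (2 * τ)⁻¹) ≤ (3 * H) ^ r * (2 ^ r * (2 * τ)⁻¹) :=
          mul_le_mul_of_nonneg_right hcard (by positivity)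
      _ = 2 ^ r * D * (1 / 2) := by
          rw [hτ]
          field_simp
      _ ≤ 2 ^ r * D := by
          have : (0 : ℝ) ≤ 2 ^ r * D := by positivity
          linarith
  -- the close part
  have h4 : (T.card : ℝ) ≤ 3 * H + 3 ^ r * ((H : ℝ) ^ r * P.card) := by
    by_cases hd : ∀ k ∈ T, ∀ k' ∈ T, ¬ Ind k k'
    · have := x3_dep r H T (filter_subset _ _) hd
      have h5 : (T.card : ℝ) ≤ 2 * H + 1 := by exact_mod_cast this
      have h6 : (0 : ℝ) ≤ 3 ^ r * ((H : ℝ) ^ r * P.card) := by positivity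
      linarith
    · push Not at hd
      obtain ⟨k, hk, k', hk', hi⟩ := hd
      have hmem : (k, k') ∈ P := by
        rw [hP, mem_filter, mem_product]
        rw [hT, mem_filter] at hk hk'
        exact ⟨⟨hk.1, hk'.1⟩, hi, hk.2, hk'.2⟩
      have h5 : (1 : ℝ) ≤ P.card := by
        exact_mod_cast card_pos.2 ⟨_, hmem⟩
      have h6 : (T.card : ℝ) ≤ (3 * H) ^ r :=
        le_trans (by exact_mod_cast card_le_card (filter_subset _ _)) hcard
      have h7 : ((3 : ℝ) * H) ^ r ≤ 3 ^ r * ((H : ℝ) ^ r * P.card) := by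
        rw [mul_pow]
        apply mul_le_mul_of_nonneg_left _ (by positivity)
        exact le_mul_of_one_le_right (by positivity) h5
      linarith
  calc ∑ d ∈ Ioc D (16 * D), Pd A r N d y
      ≤ (T.card : ℝ) * (2 ^ r * (15 * D)) + ((BZ r H).card : ℝ) * (2 ^ r * (2 * τ)⁻¹) :=
        h1.trans h2
    _ ≤ (3 * H + 3 ^ r * ((H : ℝ) ^ r * P.card)) * (2 ^ r * (15 * D)) + 2 ^ r * D :=
        add_le_add (mul_le_mul_of_nonneg_right h4 (by positivity)) h3
    _ ≤ 2 ^ r * (46 + 15 * 3 ^ r) * D * (H + (H : ℝ) ^ r * P.card) := by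
        have hx : (0 : ℝ) ≤ (H : ℝ) ^ r * P.card := by positivity
        have h3r : (0 : ℝ) < 3 ^ r := by positivity
        have h2r : (0 : ℝ) < 2 ^ r := by positivity
        generalize (H : ℝ) ^ r * (P.card : ℝ) = X at hx ⊢
        have e : 2 ^ r * (46 + 15 * 3 ^ r) * D * (H + X) -
            ((3 * H + 3 ^ r * X) * (2 ^ r * (15 * D)) + 2 ^ r * D) =
            2 ^ r * D * ((H - 1) + 15 * 3 ^ r * H + 46 * X) := by ring
        have e2 : 0 ≤ 2 ^ r * (D : ℝ) * ((H - 1) + 15 * 3 ^ r * H + 46 * X) := by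
          apply mul_nonneg (by positivity)
          have : (0 : ℝ) ≤ 15 * 3 ^ r * H := by positivity
          linarith
        linarith

open scoped Classical in
/-- sum of the collisions over all denominators -/
theorem coll_sum (r : ℕ) : ∃ C : ℝ, 0 < C ∧ ∀ (A N D H : ℕ) [NeZero A], 1 ≤ N → 1 ≤ D → 1 ≤ H →
    2 * N ≤ (H + 1) * D → ∀ W : Finset (ZMod A × (Fin r → ZMod A)),
    ∑ d ∈ Ioc D (16 * D), Coll A r N d W ≤ C * D *
      (H * ((A : ℝ)⁻¹ * ∑ z : ZMod A, (((A : ℝ)⁻¹) ^ r * (sec A r W z).card) ^ 2) +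
        (H : ℝ) ^ r * ∑ k ∈ (BZ r H ×ˢ BZ r H).filter
          (fun k : (Fin r → ℤ) × (Fin r → ℤ) => Ind k.1 k.2),
          Pr A r W k.1 k.2 ((3 * H : ℝ) ^ r / D)) := by
  obtain ⟨C, hC, h⟩ := Pd_sum r
  refine ⟨C, hC, ?_⟩
  intro A N D H _ hN hD hH hNH W
  set τ : ℝ := (3 * H : ℝ) ^ r / D with hτ
  set Q := (BZ r H ×ˢ BZ r H).filter
    (fun k : (Fin r → ℤ) × (Fin r → ℤ) => Ind k.1 k.2) with hQ
  -- indicator
  let χ : (Fin r → ℤ) × (Fin r → ℤ) → (Fin r → ZMod A) → ℝ := fun k y =>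
    if nrm A (dt k.1 y) ≤ τ ∧ nrm A (dt k.2 y) ≤ τ then 1 else 0
  have hcardP : ∀ y : Fin r → ZMod A,
      (((BZ r H ×ˢ BZ r H).filter fun k : (Fin r → ℤ) × (Fin r → ℤ) => Ind k.1 k.2 ∧
        nrm A (dt k.1 y) ≤ τ ∧ nrm A (dt k.2 y) ≤ τ).card : ℝ) = ∑ k ∈ Q, χ k y := by
    intro y
    rw [hQ, sum_filter]
    rw [card_filter]
    push_cast
    refine sum_congr rfl fun k _ => ?_
    by_cases h1 : Ind k.1 k.2
    · by_cases h2 : nrm A (dt k.1 y) ≤ τ ∧ nrm A (dt k.2 y) ≤ τ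
      · simp [χ, h1, h2]
      · simp [χ, h1, h2]
    · simp [h1]
  have hpt : ∀ y : Fin r → ZMod A, ∑ d ∈ Ioc D (16 * D), Pd A r N d y ≤
      C * D * (H + (H : ℝ) ^ r * ∑ k ∈ Q, χ k y) := by
    intro y
    have := h A N D H hN hD hH hNH y
    rw [hcardP y] at this
    exact this
  have hA : (0 : ℝ) ≤ (A : ℝ)⁻¹ := by positivity
  -- exchange
  have e1 : ∑ d ∈ Ioc D (16 * D), Coll A r N d W =
      (A : ℝ)⁻¹ * ∑ z : ZMod A, ((A : ℝ)⁻¹) ^ (2 * r) * ∑ y ∈ sec A r W z, ∑ y' ∈ sec A r W z,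
        ∑ d ∈ Ioc D (16 * D), Pd A r N d (y' - y) := by
    unfold Coll
    rw [← mul_sum, sum_comm]
    congr 1
    refine sum_congr rfl fun z _ => ?_
    rw [← mul_sum, sum_comm]
    congr 1
    refine sum_congr rfl fun y _ => ?_
    rw [sum_comm]
  rw [e1]
  have e2 : (A : ℝ)⁻¹ * ∑ z : ZMod A, ((A : ℝ)⁻¹) ^ (2 * r) * ∑ y ∈ sec A r W z,
        ∑ y' ∈ sec A r W z, ∑ d ∈ Ioc D (16 * D), Pd A r N d (y' - y) ≤
      (A : ℝ)⁻¹ * ∑ z : ZMod A, ((A : ℝ)⁻¹) ^ (2 * r) * ∑ y ∈ sec A r W z,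
        ∑ y' ∈ sec A r W z, C * D * (H + (H : ℝ) ^ r * ∑ k ∈ Q, χ k (y' - y)) := by
    apply mul_le_mul_of_nonneg_left _ hA
    refine sum_le_sum fun z _ => ?_
    apply mul_le_mul_of_nonneg_left _ (by positivity)
    exact sum_le_sum fun y _ => sum_le_sum fun y' _ => hpt _
  refine e2.trans (le_of_eq ?_)
  have e3 : ∀ z : ZMod A, ((A : ℝ)⁻¹) ^ (2 * r) * ∑ y ∈ sec A r W z,
        ∑ y' ∈ sec A r W z, C * D * (H + (H : ℝ) ^ r * ∑ k ∈ Q, χ k (y' - y)) =
      C * D * (H * (((A : ℝ)⁻¹) ^ r * (sec A r W z).card) ^ 2 + (H : ℝ) ^ r *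
        ∑ k ∈ Q, ((A : ℝ)⁻¹) ^ (2 * r) * ∑ y ∈ sec A r W z, ∑ y' ∈ sec A r W z, χ k (y' - y)) := by
    intro z
    have f1 : ∑ y ∈ sec A r W z, ∑ y' ∈ sec A r W z, C * D * (H + (H : ℝ) ^ r *
        ∑ k ∈ Q, χ k (y' - y)) = C * D * (H * ((sec A r W z).card : ℝ) ^ 2 + (H : ℝ) ^ r *
        ∑ k ∈ Q, ∑ y ∈ sec A r W z, ∑ y' ∈ sec A r W z, χ k (y' - y)) := by
      have g1 : ∑ k ∈ Q, ∑ y ∈ sec A r W z, ∑ y' ∈ sec A r W z, χ k (y' - y) =
          ∑ y ∈ sec A r W z, ∑ y' ∈ sec A r W z, ∑ k ∈ Q, χ k (y' - y) := by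
        rw [sum_comm]
        exact sum_congr rfl fun y _ => sum_comm
      rw [g1]
      simp_rw [mul_add, sum_add_distrib, ← mul_sum]
      simp only [sum_const, nsmul_eq_mul, ← mul_assoc]
      ring
    rw [f1, ← mul_sum]
    ring
  simp_rw [e3]
  rw [← mul_sum]
  have e4 : ∑ z : ZMod A, (H * (((A : ℝ)⁻¹) ^ r * (sec A r W z).card) ^ 2 + (H : ℝ) ^ r *
        ∑ k ∈ Q, ((A : ℝ)⁻¹) ^ (2 * r) * ∑ y ∈ sec A r W z, ∑ y' ∈ sec A r W z, χ k (y' - y)) =
      H * (∑ z : ZMod A, (((A : ℝ)⁻¹) ^ r * (sec A r W z).card) ^ 2) + (H : ℝ) ^ r *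
        ∑ k ∈ Q, ∑ z : ZMod A, ((A : ℝ)⁻¹) ^ (2 * r) * ∑ y ∈ sec A r W z,
          ∑ y' ∈ sec A r W z, χ k (y' - y) := by
    rw [sum_add_distrib, ← mul_sum, ← mul_sum, sum_comm]
  rw [e4]
  have e5 : ∑ k ∈ Q, Pr A r W k.1 k.2 τ = (A : ℝ)⁻¹ * ∑ k ∈ Q, ∑ z : ZMod A,
      ((A : ℝ)⁻¹) ^ (2 * r) * ∑ y ∈ sec A r W z, ∑ y' ∈ sec A r W z, χ k (y' - y) := by
    rw [mul_sum]
    refine sum_congr rfl fun k _ => ?_
    rfl
  rw [e5]
  ring

end Stx
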